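import Pool.Agent.CBG.StmtsA

/-! Row MAX of squad CBG: continuous functions on the compact manifold have a maximum. -/

set_option autoImplicit false
set_option maxSynthPendingDepth 3

open scoped Manifold ContDiff Topology
open Set Filter MeasureTheory

namespace Pool.Agent.CBG.H65

open Pool.Agent.CBG

/-- the Gram determinant of a positive form -/
theorem gram65 (b : ℝ × ℝ → ℝ × ℝ → ℝ) (hs : ∀ a c, b a c = b c a)
    (ha : ∀ a a' c, b (a + a') c = b a c + b a' c) (hm : ∀ (r : ℝ) a c, b (r • a) c = r * b a c)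
    (hp : ∀ a, a ≠ 0 → 0 < b a a) :
    0 < b (1, 0) (1, 0) * b (0, 1) (0, 1) - b (1, 0) (0, 1) ^ 2 := by
  obtain ⟨p, hpp⟩ : ∃ p, p = b (1, 0) (1, 0) := ⟨_, rfl⟩
  obtain ⟨q, hq⟩ : ∃ q, q = b (0, 1) (0, 1) := ⟨_, rfl⟩
  obtain ⟨r, hr⟩ : ∃ r, r = b (1, 0) (0, 1) := ⟨_, rfl⟩
  have hp0 : 0 < p := by
    rw [hpp]
    apply hp
    intro h
    have := congrArg Prod.fst h
    norm_num at this
  have hne : r • ((1 : ℝ), (0 : ℝ)) + (-p) • ((0 : ℝ), (1 : ℝ)) ≠ 0 := by
    intro h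
    have h1 := congrArg Prod.snd h
    simp at h1
    linarith
  have h1 := hp _ hne
  rw [ha, hm, hm, hs (1, 0), hs (0, 1), ha, hm, hm, ha, hm, hm, hs (0, 1) (1, 0), ← hpp, ← hq,
    ← hr] at h1
  rw [← hpp, ← hq, ← hr]
  have h2 : r * (r * p + -p * r) + -p * (r * r + -p * q) = p * (p * q - r ^ 2) := by ring
  rw [h2] at h1
  exact pos_of_mul_pos_right h1 hp0.le |> fun h => h

theorem mu65 : mu = ((volume : Measure ℝ).prod (volume : Measure ℝ)).restrict
    (Icc (0 : ℝ) 1 ×ˢ Icc (0 : ℝ) 1) := by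
  unfold mu
  rw [Measure.restrict_congr_set (Ioc_ae_eq_Icc (μ := (volume : Measure ℝ)) (a := (0 : ℝ))
    (b := 1)), Measure.prod_restrict]

theorem cont65 {E : Type} [TopologicalSpace E] [FirstCountableTopology E] [LocallyCompactSpace E]
    {f : E → ℝ × ℝ → ℝ} (hf : Continuous (Function.uncurry f)) :
    Continuous (fun q => ∫ t, f q t ∂mu) := by
  rw [mu65]
  exact continuous_parametric_integral_of_continuous hf
    ((isCompact_Icc (a := (0 : ℝ)) (b := 1)).prod (isCompact_Icc (a := (0 : ℝ)) (b := 1)))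

theorem max (h1 : Mu0Stmt) (h2 : VfxStmt) (h3 : HctStmt) : MaxStmt := by
  intro n E _ _ _ _ _ _ Φ hΦ g
  obtain ⟨-, hint, -, hpos⟩ := h1
  obtain ⟨-, -, -, -, hbil, hvp⟩ := h2 n E Φ hΦ
  have hc := h3 n E Φ hΦ g
  haveI : SecondCountableTopology E :=
    ChartedSpace.secondCountable_of_sigmaCompact (Ed n) E
  haveI : LocallyCompactSpace E := ChartedSpace.locallyCompactSpace (Ed n) E
  have hact : Continuous (fun q : E × (ℝ × ℝ) => Φ q.2 q.1) :=
    hΦ.smooth.continuous.comp (continuous_snd.prodMk continuous_fst)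
  have hcc : ∀ a b, Continuous (fun q : E × (ℝ × ℝ) => hh g Φ a b (Φ q.2 q.1)) := fun a b =>
    (hc a b).comp hact
  have hct : ∀ a b q, Continuous (fun t : ℝ × ℝ => hh g Φ a b (Φ t q)) := fun a b q =>
    (hcc a b).comp (continuous_const.prodMk continuous_id)
  have he : ((1 : ℝ), (0 : ℝ)) ≠ 0 := by
    intro h
    have := congrArg Prod.fst h
    norm_num at this
  have hd1 : ∀ q, 0 < hh g Φ (1, 0) (1, 0) q * hh g Φ (0, 1) (0, 1) q -
      hh g Φ (1, 0) (0, 1) q ^ 2 := by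
    intro q
    obtain ⟨i1, i2, i3⟩ := hbil g q
    exact gram65 (fun a b => hh g Φ a b q) i1 i2 i3 (fun a ha => hvp g a q ha)
  have hd2 : ∀ q, 0 < (∫ t, hh g Φ (1, 0) (1, 0) (Φ t q) ∂mu) *
      (∫ t, hh g Φ (0, 1) (0, 1) (Φ t q) ∂mu) - (∫ t, hh g Φ (1, 0) (0, 1) (Φ t q) ∂mu) ^ 2 := by
    intro q
    refine gram65 (fun a b => ∫ t, hh g Φ a b (Φ t q) ∂mu) ?_ ?_ ?_ ?_
    · intro a c
      exact integral_congr_ae (Eventually.of_forall fun t => (hbil g (Φ t q)).1 a c)
    · intro a a' c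
      show ∫ t, hh g Φ (a + a') c (Φ t q) ∂mu = _ + _
      rw [← integral_add (hint ℝ _ (hct a c q)) (hint ℝ _ (hct a' c q))]
      exact integral_congr_ae (Eventually.of_forall fun t => (hbil g (Φ t q)).2.1 a a' c)
    · intro r a c
      show ∫ t, hh g Φ (r • a) c (Φ t q) ∂mu = _ * _
      rw [← integral_const_mul]
      exact integral_congr_ae (Eventually.of_forall fun t => (hbil g (Φ t q)).2.2 r a c)
    · intro a ha
      exact hpos _ (hct a a q) (fun t => hvp g a _ ha)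
  constructor
  · have hf : Continuous (fun q : E => (∫ t, (√(hh g Φ (1, 0) (1, 0) (Φ t q)))⁻¹ ∂mu) ^ 2 *
        hh g Φ (1, 0) (1, 0) q * inv11 (fun a b => hh g Φ a b q)) := by
      refine Continuous.mul (Continuous.mul (Continuous.pow ?_ 2) (hc _ _)) ?_
      · refine cont65 (f := fun q t => (√(hh g Φ (1, 0) (1, 0) (Φ t q)))⁻¹) ?_
        refine Continuous.inv₀ (Real.continuous_sqrt.comp (hcc _ _)) ?_
        intro x
        exact (Real.sqrt_pos.2 (hvp g _ _ he)).ne'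
      · unfold inv11
        refine Continuous.div (hc _ _) (((hc _ _).mul (hc _ _)).sub ((hc _ _).pow 2)) ?_
        intro q
        exact (hd1 q).ne'
    obtain ⟨p, -, hp⟩ := isCompact_univ.exists_isMaxOn univ_nonempty hf.continuousOn
    exact ⟨p, fun q => hp (mem_univ q)⟩
  · have hf : Continuous (fun q : E => inv11 (fun a b => ∫ t, hh g Φ a b (Φ t q) ∂mu)) := by
      have hk : ∀ a b, Continuous (fun q : E => ∫ t, hh g Φ a b (Φ t q) ∂mu) := fun a b =>
        cont65 (f := fun q t => hh g Φ a b (Φ t q)) (hcc a b)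
      unfold inv11
      refine Continuous.div (hk _ _) (((hk _ _).mul (hk _ _)).sub ((hk _ _).pow 2)) ?_
      intro q
      exact (hd2 q).ne'
    obtain ⟨p, -, hp⟩ := isCompact_univ.exists_isMaxOn univ_nonempty hf.continuousOn
    exact ⟨p, fun q => hp (mem_univ q)⟩

end Pool.Agent.CBG.H65
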